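import Mathlib

set_option autoImplicit false

namespace Pool.Agent.H861.Mestre

open Polynomial

/-- Mestre's lemma: a monic polynomial of degree `2 m` is `Q ^ 2 - R` with `Q` monic of degree `m` and
`deg R < m`, over a ring in which `2` is invertible. -/
theorem exists_sq_sub {A : Type*} [CommRing A] [Nontrivial A] (h2 : IsUnit (2 : A)) (m : ℕ) (p : A[X])
    (hp : p.Monic) (hd : p.natDegree = 2 * m) :
    ∃ Q R : A[X], Q.Monic ∧ Q.natDegree = m ∧ R.degree < m ∧ p = Q ^ 2 - R := by
  obtain ⟨i2, hi2⟩ := h2.exists_right_inv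
  -- `p - Q_k ^ 2` has degree `< 2 m - k`
  have key : ∀ k ≤ m, ∃ Q : A[X], Q.Monic ∧ Q.natDegree = m ∧ (p - Q ^ 2).degree < ((2 * m - k : ℕ) : WithBot ℕ) := by
    intro k
    induction k with
    | zero =>
      intro _
      refine ⟨X ^ m, monic_X_pow m, natDegree_X_pow m, ?_⟩
      have h1 : ((X : A[X]) ^ m) ^ 2 = X ^ (2 * m) := by rw [← pow_mul, mul_comm]
      rw [h1, Nat.sub_zero]
      have h3 : p.degree = ((2 * m : ℕ) : WithBot ℕ) := by
        rw [degree_eq_natDegree hp.ne_zero, hd]
      rw [← h3]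
      apply degree_sub_lt_left
      · rw [h3, degree_X_pow]
      · exact hp.ne_zero
      · rw [hp.leadingCoeff, (monic_X_pow (R := A) (2 * m)).leadingCoeff]
    | succ k ih =>
      intro hk
      obtain ⟨Q, hQ, hQd, hQe⟩ := ih (by omega)
      set c := (p - Q ^ 2).coeff (2 * m - k - 1) with hc
      have hkm : m - k - 1 < m := by omega
      refine ⟨Q + C (i2 * c) * X ^ (m - k - 1), ?_, ?_, ?_⟩
      · apply hQ.add_of_left
        rw [degree_eq_natDegree hQ.ne_zero, hQd]
        exact lt_of_le_of_lt (degree_C_mul_X_pow_le _ _) (by exact_mod_cast hkm)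
      · rw [natDegree_add_eq_left_of_natDegree_lt, hQd]
        rw [hQd]
        exact lt_of_le_of_lt (natDegree_C_mul_X_pow_le _ _) hkm
      · rw [degree_lt_iff_coeff_zero]
        intro j hj
        have hexp : p - (Q + C (i2 * c) * X ^ (m - k - 1)) ^ 2
            = (p - Q ^ 2) - (C (2 * i2 * c) * (Q * X ^ (m - k - 1))
              + C ((i2 * c) ^ 2) * X ^ (2 * (m - k - 1))) := by
          simp only [map_mul, map_pow, C_ofNat]
          ring
        have h10 : (X ^ (2 * (m - k - 1)) : A[X]).coeff j = 0 := by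
          rw [coeff_X_pow, if_neg (by omega)]
        rw [hexp, hi2, one_mul, coeff_sub, coeff_add, coeff_C_mul, coeff_C_mul, h10,
          coeff_mul_X_pow', mul_zero, add_zero]
        have hj' : 2 * m - k - 1 ≤ j := by omega
        rcases Nat.eq_or_lt_of_le hj' with h | h
        · rw [← h, ← hc, if_pos (by omega)]
          have h5 : 2 * m - k - 1 - (m - k - 1) = m := by omega
          rw [h5]
          have h6 : Q.coeff m = 1 := by rw [← hQd]; exact hQ
          rw [h6, mul_one, sub_self]
        · have h7 : (p - Q ^ 2).coeff j = 0 := by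
            apply coeff_eq_zero_of_degree_lt
            refine lt_of_lt_of_le hQe ?_
            exact_mod_cast (by omega : 2 * m - k ≤ j)
          rw [h7, if_pos (by omega)]
          have h8 : Q.coeff (j - (m - k - 1)) = 0 := by
            apply coeff_eq_zero_of_natDegree_lt
            omega
          rw [h8, mul_zero, sub_zero]
  obtain ⟨Q, hQ, hQd, hQe⟩ := key m le_rfl
  refine ⟨Q, Q ^ 2 - p, hQ, hQd, ?_, by ring⟩
  rw [← neg_sub, degree_neg]
  have h9 : 2 * m - m = m := by omega
  rwa [h9] at hQe

end Pool.Agent.H861.Mestre
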