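import Mathlib
import Pool.Agent.H861.Mestre

set_option autoImplicit false

namespace Pool.Agent.H861.Mestre

open Polynomial

lemma isCoprime_of_eval_ne {K : Type*} [Field K] {f : K[X]} {a : K} (h : f.eval a ≠ 0) :
    IsCoprime f (X - C a) := by
  rw [isCoprime_comm]
  refine ((irreducible_X_sub_C a).coprime_iff_not_dvd).mpr ?_
  rw [dvd_iff_isRoot]
  exact h

lemma isCoprime_of_isUnit_right' {R : Type*} [CommRing R] {a b : R} (h : IsUnit b) : IsCoprime a b := by
  obtain ⟨c, hc⟩ := h.exists_right_inv
  exact ⟨0, c, by rw [zero_mul, zero_add, mul_comm, hc]⟩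

/-- The special case of the polynomial `X ^ (2 k + 1) * (X - 1)`. -/
theorem special {K : Type*} [Field K] [CharZero K] (k : ℕ) (Q R : K[X])
    (hQ : Q.Monic) (hQd : Q.natDegree = k + 1) (hR : R.degree < ((k + 1 : ℕ) : WithBot ℕ))
    (h : X ^ (2 * k + 1) * (X - 1) = Q ^ 2 - R) :
    R ≠ 0 ∧ R.natDegree = k ∧ R.eval 0 ≠ 0 ∧ R.eval 1 ≠ 0 ∧ IsCoprime R (derivative R) := by
  have hRn : R.natDegree ≤ k := by
    rcases eq_or_ne R 0 with h0 | h0
    · simp [h0]
    · have := (natDegree_lt_iff_degree_lt h0).mpr hR
      omega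
  set L : K[X] := C (2 * k + 2 : K) * X - C (2 * k + 1 : K) with hL
  have hLd : L.natDegree ≤ 1 := by
    rw [hL]
    compute_degree
  set E : K[X] := 2 * X * (X - 1) * derivative Q - L * Q with hE
  have hder : derivative (X ^ (2 * k + 1) * (X - 1) : K[X]) = X ^ (2 * k) * L := by
    rw [derivative_mul, derivative_X_pow, derivative_sub, derivative_X, derivative_one]
    simp only [hL, Nat.add_sub_cancel, map_add, map_mul, map_ofNat, Nat.cast_add, Nat.cast_mul,
      Nat.cast_ofNat, Nat.cast_one, map_one, map_natCast]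
    ring
  have hder2 : 2 * Q * derivative Q = X ^ (2 * k) * L + derivative R := by
    rw [← hder, h, derivative_sub, pow_two, derivative_mul]
    ring
  have hQE : Q * E = X * (X - 1) * derivative R - L * R := by
    have h1 : X ^ (2 * k) * (Q * E) = X ^ (2 * k) * (X * (X - 1) * derivative R - L * R) := by
      have h2 : X ^ (2 * k) * (Q * E) = X ^ (2 * k + 1) * (X - 1) * (2 * Q * derivative Q)
          - X ^ (2 * k) * L * Q ^ 2 := by
        rw [hE]; ring
      rw [h2, hder2]
      have h3 : Q ^ 2 = X ^ (2 * k + 1) * (X - 1) + R := by rw [h]; ring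
      rw [h3]
      ring
    exact mul_left_cancel₀ (pow_ne_zero _ X_ne_zero) h1
  -- degree of the right side
  have hdeg : (Q * E).natDegree ≤ R.natDegree + 1 := by
    rw [hQE]
    refine (natDegree_sub_le _ _).trans (max_le ?_ ?_)
    · rcases eq_or_ne (derivative R) 0 with h0 | h0
      · simp [h0]
      · refine natDegree_mul_le.trans ?_
        have h4 : (X * (X - 1) : K[X]).natDegree ≤ 2 := by
          compute_degree
        have h5 : (derivative R).natDegree < R.natDegree := by
          apply natDegree_derivative_lt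
          intro h6
          apply h0
          rw [natDegree_eq_zero] at h6
          obtain ⟨x, rfl⟩ := h6
          simp
        omega
    · refine natDegree_mul_le.trans ?_
      omega
  have hR0 : R ≠ 0 := by
    rintro rfl
    rw [sub_zero] at h
    have h1 : Q.eval 1 = 0 := by
      have := congrArg (eval 1) h
      simpa using this.symm
    obtain ⟨G, hG⟩ := dvd_iff_isRoot.mpr h1
    have h2 : (X : K[X]) ^ (2 * k + 1) = (X - C 1) * G ^ 2 := by
      have h3 : (X - C 1 : K[X]) * X ^ (2 * k + 1) = (X - C 1) * ((X - C 1) * G ^ 2) := by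
        calc (X - C 1 : K[X]) * X ^ (2 * k + 1) = X ^ (2 * k + 1) * (X - 1) := by
              rw [map_one]; ring
          _ = Q ^ 2 := h
          _ = _ := by rw [hG]; ring
      exact mul_left_cancel₀ (X_sub_C_ne_zero 1) h3
    have h4 := congrArg (eval 1) h2
    simp at h4
  -- `E` is a constant
  have hE0 : E ≠ 0 := by
    intro h0
    rw [h0, mul_zero] at hQE
    have h1 := congrArg (fun f => f.coeff (R.natDegree + 1)) hQE
    simp only [coeff_zero] at h1
    have h2 : (X * (X - 1) * derivative R - L * R).coeff (R.natDegree + 1)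
        = (R.natDegree : K) * R.leadingCoeff - (2 * k + 2 : K) * R.leadingCoeff := by
      have h3 : X * (X - 1) * derivative R - L * R
          = X * (X * derivative R) - X * derivative R - C (2 * k + 2 : K) * (X * R)
            + C (2 * k + 1 : K) * R := by rw [hL]; ring
      rw [h3, coeff_add, coeff_sub, coeff_sub, coeff_X_mul, coeff_X_mul, coeff_C_mul, coeff_X_mul,
        coeff_C_mul, coeff_eq_zero_of_natDegree_lt (Nat.lt_succ_self R.natDegree), mul_zero, add_zero]
      have h4 : (derivative R).coeff R.natDegree = 0 := by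
        rw [coeff_derivative, coeff_eq_zero_of_natDegree_lt (Nat.lt_succ_self R.natDegree), zero_mul]
      rw [h4, sub_zero]
      congr 1
      rcases Nat.eq_zero_or_pos R.natDegree with h5 | h5
      · rw [h5]; simp
      · obtain ⟨j, hj⟩ : ∃ j, R.natDegree = j + 1 := ⟨R.natDegree - 1, by omega⟩
        rw [hj, coeff_X_mul, coeff_derivative, leadingCoeff, hj]
        push_cast
        ring
    rw [h2] at h1
    have h5 : (R.natDegree : K) - (2 * k + 2 : K) ≠ 0 := by
      have h6 : ((R.natDegree : ℕ) : K) ≠ ((2 * k + 2 : ℕ) : K) := by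
        rw [Ne, Nat.cast_inj]
        omega
      intro h7
      apply h6
      push_cast
      exact sub_eq_zero.mp h7
    have h8 : ((R.natDegree : K) - (2 * k + 2 : K)) * R.leadingCoeff = 0 := by
      rw [sub_mul]; exact h1.symm
    exact mul_ne_zero h5 (leadingCoeff_ne_zero.mpr hR0) h8
  have hEd : E.natDegree = 0 ∧ R.natDegree = k := by
    rw [hQ.natDegree_mul' hE0, hQd] at hdeg
    omega
  obtain ⟨κ, hκ⟩ := natDegree_eq_zero.mp hEd.1
  have hκ0 : κ ≠ 0 := by
    rintro rfl
    exact hE0 (by rw [← hκ]; simp)
  have e0 : κ = (2 * k + 1 : K) * Q.eval 0 := by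
    have := congrArg (eval 0) hκ
    rw [hE, hL] at this
    simp at this
    rw [this]
    ring
  have e1 : κ = - Q.eval 1 := by
    have := congrArg (eval 1) hκ
    rw [hE, hL] at this
    simp only [eval_C, eval_sub, eval_mul, eval_ofNat, eval_X, eval_one, sub_self, mul_zero, zero_mul,
      zero_sub, mul_one] at this
    rw [this]; ring
  have q0 : Q.eval 0 ≠ 0 := by
    intro h0; rw [h0, mul_zero] at e0; exact hκ0 e0
  have q1 : Q.eval 1 ≠ 0 := by
    intro h0; rw [h0, neg_zero] at e1; exact hκ0 e1
  have r0 : R.eval 0 = Q.eval 0 ^ 2 := by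
    have := congrArg (eval 0) h
    simp at this
    linear_combination this
  have r1 : R.eval 1 = Q.eval 1 ^ 2 := by
    have := congrArg (eval 1) h
    simp at this
    linear_combination this
  have r0' : R.eval 0 ≠ 0 := by rw [r0]; exact pow_ne_zero _ q0
  have r1' : R.eval 1 ≠ 0 := by rw [r1]; exact pow_ne_zero _ q1
  refine ⟨hR0, hEd.2, r0', r1', ?_⟩
  have c1 : IsCoprime R (X ^ (2 * k + 1) * (X - 1)) := by
    apply IsCoprime.mul_right
    · apply IsCoprime.pow_right
      have := isCoprime_of_eval_ne (a := (0 : K)) r0'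
      rwa [map_zero, sub_zero] at this
    · have := isCoprime_of_eval_ne (a := (1 : K)) r1'
      rwa [map_one] at this
  rw [h] at c1
  have c2 : IsCoprime R (Q ^ 2) := by
    have := c1.add_mul_left_right 1
    rwa [mul_one, sub_add_cancel] at this
  have c3 : IsCoprime R Q := (IsCoprime.pow_right_iff (by norm_num)).mp c2
  have c4 : IsCoprime R (Q * E) := by
    apply c3.mul_right
    rw [← hκ]
    exact isCoprime_of_isUnit_right' (isUnit_C.mpr hκ0.isUnit)
  rw [hQE] at c4
  have c5 : IsCoprime R (X * (X - 1) * derivative R) := by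
    have := c4.add_mul_left_right L
    have h6 : X * (X - 1) * derivative R - L * R + R * L = X * (X - 1) * derivative R := by ring
    rwa [h6] at this
  exact c5.of_mul_right_right

end Pool.Agent.H861.Mestre
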