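import Mathlib
import Pool.Agent.H861.Mestre2

set_option autoImplicit false

namespace Pool.Agent.H861.Mestre

open Polynomial

lemma finite_zeros {K : Type*} [Field K] {f : K[X]} (hf : f ≠ 0) : {z : K | f.eval z = 0}.Finite := by
  have := Polynomial.finite_setOfPred_isRoot hf
  exact this

/-- the polynomial `∏ (X - u_i z) * (X - 1)` over `K[z]` -/
noncomputable def pt {K : Type*} [Field K] (k : ℕ) (u : Fin (2 * k + 1) → K) : K[X][X] :=
  (∏ i, (X - C (C (u i) * X))) * (X - 1)

lemma pt_monic {K : Type*} [Field K] (k : ℕ) (u : Fin (2 * k + 1) → K) : (pt k u).Monic := by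
  unfold pt
  apply Monic.mul
  · exact monic_prod_of_monic _ _ fun i _ => monic_X_sub_C _
  · rw [← map_one C]; exact monic_X_sub_C _

lemma pt_natDegree {K : Type*} [Field K] (k : ℕ) (u : Fin (2 * k + 1) → K) :
    (pt k u).natDegree = 2 * (k + 1) := by
  unfold pt
  rw [Monic.natDegree_mul, natDegree_prod_of_monic]
  · simp only [natDegree_X_sub_C, Finset.sum_const, Finset.card_univ, Fintype.card_fin, smul_eq_mul,
      mul_one]
    rw [← map_one C, natDegree_X_sub_C]
    ring
  · exact fun i _ => monic_X_sub_C _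
  · exact monic_prod_of_monic _ _ fun i _ => monic_X_sub_C _
  · rw [← map_one C]; exact monic_X_sub_C _

/-- For all but finitely many `w` the polynomial `∏ (X - u_i) * (X - w)` is `Q ^ 2 - R` with `R` of
degree exactly `k`, without multiple roots and not vanishing at given points, nor at `w`. -/
theorem perturb {K L : Type*} [Field K] [CharZero K] [Field L] [Algebra K L] (k : ℕ)
    (u : Fin (2 * k + 1) → K) (S : Finset L) :
    {w : K | ¬ ∃ Q R : K[X], Q.Monic ∧ Q.natDegree = k + 1 ∧ R ≠ 0 ∧ R.natDegree = k ∧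
      IsCoprime R (derivative R) ∧ (∏ i, (X - C (u i))) * (X - C w) = Q ^ 2 - R ∧
      (∀ s ∈ S, aeval s R ≠ 0) ∧ R.eval w ≠ 0}.Finite := by
  classical
  have h2 : IsUnit (2 : K[X]) := by
    rw [← C_ofNat]
    exact isUnit_C.mpr (isUnit_iff_ne_zero.mpr two_ne_zero)
  obtain ⟨Q, R, hQ, hQd, hR, hp⟩ := exists_sq_sub h2 (k + 1) (pt k u) (pt_monic k u) (pt_natDegree k u)
  have hRn : R.natDegree ≤ k := by
    rcases eq_or_ne R 0 with h0 | h0
    · simp [h0]
    · have := (natDegree_lt_iff_degree_lt h0).mpr hR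
      omega
  -- the specialisation at `z`
  let ev : K → (K[X] →+* K) := fun z => evalRingHom z
  have hmapQ : ∀ z, (Q.map (ev z)).Monic ∧ (Q.map (ev z)).natDegree = k + 1 := fun z =>
    ⟨hQ.map _, by rw [hQ.natDegree_map, hQd]⟩
  have hmapR : ∀ z, (R.map (ev z)).natDegree ≤ k := fun z => natDegree_map_le.trans hRn
  have hmapp : ∀ z, (∏ i, (X - C (u i * z))) * (X - 1) = (Q.map (ev z)) ^ 2 - R.map (ev z) := by
    intro z
    have := congrArg (Polynomial.map (ev z)) hp
    rw [Polynomial.map_sub, Polynomial.map_pow] at this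
    rw [← this]
    unfold pt
    simp [Polynomial.map_mul, Polynomial.map_prod, ev]
  -- the special case
  have hsp := special k (Q.map (ev 0)) (R.map (ev 0)) (hmapQ 0).1 (hmapQ 0).2 (by
      rw [degree_lt_iff_coeff_zero]
      intro j hj
      apply coeff_eq_zero_of_natDegree_lt
      have := hmapR 0
      omega) (by
      rw [← hmapp 0]
      simp)
  obtain ⟨s0, s1, s2, s3, s4⟩ := hsp
  -- the four polynomials
  have f1 : {z : K | (R.coeff k).eval z = 0}.Finite := by
    apply finite_zeros
    intro h0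
    have : (R.map (ev 0)).coeff k = 0 := by rw [coeff_map, h0, map_zero]
    rw [← s1] at this
    exact s0 (leadingCoeff_eq_zero.mp this)
  have f2 : {z : K | (resultant R (derivative R) k (k - 1)).eval z = 0}.Finite := by
    apply finite_zeros
    intro h0
    have h1 : resultant (R.map (ev 0)) (derivative (R.map (ev 0))) k (k - 1) = 0 := by
      rw [derivative_map, resultant_map_map, h0, map_zero]
    have h3 : (derivative (R.map (ev 0))).natDegree = k - 1 := by
      rw [natDegree_derivative, s1]
    have h4 := resultant_ne_zero _ _ s4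
    rw [s1, h3] at h4
    exact h4 h1
  have f3 : ∀ s : L, {z : K | ((R.map (mapRingHom (algebraMap K L))).eval (C s * X)).eval
      (algebraMap K L z) = 0}.Finite := by
    intro s
    have h0 : (R.map (mapRingHom (algebraMap K L))).eval (C s * X) ≠ 0 := by
      intro h0
      have h1 := congrArg (eval 0) h0
      rw [eval_zero, ← coe_evalRingHom, ← eval₂_at_apply, coe_evalRingHom, eval_mul, eval_C, eval_X,
        mul_zero, ← eval_map, Polynomial.map_map] at h1
      have h2 : (evalRingHom (0 : L)).comp (mapRingHom (algebraMap K L))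
          = (algebraMap K L).comp (ev 0) := by
        ext a
        · simp [ev]
        · simp [ev]
      rw [h2, ← Polynomial.map_map, ← map_zero (algebraMap K L), eval_map_algebraMap,
        aeval_algebraMap_apply, coe_aeval_eq_eval] at h1
      exact s2 (FaithfulSMul.algebraMap_injective K L h1)
    exact (finite_zeros h0).preimage (FaithfulSMul.algebraMap_injective K L).injOn
  have f4 : {z : K | (R.eval 1).eval z = 0}.Finite := by
    apply finite_zeros
    intro h0
    apply s3
    have h1 := congrArg (eval 0) h0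
    rw [eval_zero, ← coe_evalRingHom, ← eval₂_at_apply, coe_evalRingHom, eval_one, ← eval_map] at h1
    exact h1
  have hfin : (({z : K | (R.coeff k).eval z = 0} ∪ {z : K | (resultant R (derivative R) k (k - 1)).eval z = 0}
      ∪ {z : K | (R.eval 1).eval z = 0}) ∪ ⋃ s ∈ S, {z : K | ((R.map (mapRingHom (algebraMap K L))).eval
        (C s * X)).eval (algebraMap K L z) = 0}).Finite :=
    ((f1.union f2).union f4).union (S.finite_toSet.biUnion fun s _ => f3 s)
  -- inverse
  have hfin2 := (hfin.image (fun z => z⁻¹)).union (Set.finite_singleton (0 : K))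
  refine hfin2.subset ?_
  intro w hw
  by_contra hcon
  apply hw
  rw [Set.mem_union, not_or, Set.mem_singleton_iff] at hcon
  obtain ⟨hcon, hw0⟩ := hcon
  have hz : w⁻¹ ∉ (({z : K | (R.coeff k).eval z = 0} ∪ {z : K | (resultant R (derivative R) k (k - 1)).eval z = 0}
      ∪ {z : K | (R.eval 1).eval z = 0}) ∪ ⋃ s ∈ S, {z : K | ((R.map (mapRingHom (algebraMap K L))).eval
        (C s * X)).eval (algebraMap K L z) = 0}) := by
    intro h
    exact hcon ⟨w⁻¹, h, inv_inv w⟩
  simp only [Set.mem_union, Set.mem_ofPred_eq, Set.mem_iUnion, not_or, not_exists] at hz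
  obtain ⟨⟨⟨z1, z2⟩, z4⟩, z3⟩ := hz
  set z := w⁻¹ with hzdef
  have hz0 : z ≠ 0 := inv_ne_zero hw0
  have hwz : w * z = 1 := mul_inv_cancel₀ hw0
  set Q1 := Q.map (ev z) with hQ1
  set R1 := R.map (ev z) with hR1
  have hc : R1.coeff k ≠ 0 := by
    rw [hR1, coeff_map]; exact z1
  have hR1d : R1.natDegree = k := le_antisymm (hmapR z) (le_natDegree_of_ne_zero hc)
  have hR10 : R1 ≠ 0 := by
    intro h; rw [h, coeff_zero] at hc; exact hc rfl
  have hcop : IsCoprime R1 (derivative R1) := by
    by_contra hnc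
    have h1 : resultant R1 (derivative R1) = 0 := resultant_eq_zero_iff.mpr ⟨Or.inl hR10, hnc⟩
    rw [natDegree_derivative, hR1d] at h1
    apply z2
    rw [hR1, derivative_map, resultant_map_map] at h1
    exact h1
  -- unscaling
  have hzX : (C z * X : K[X]).natDegree = 1 := natDegree_C_mul_X z hz0
  have hwp : ∀ j : ℕ, w ^ j ≠ 0 := fun j => pow_ne_zero _ hw0
  have hcompd : ∀ f : K[X], (f.comp (C z * X)).natDegree = f.natDegree := fun f => by
    rw [natDegree_comp, hzX, mul_one]
  have hcomp0 : ∀ f : K[X], f ≠ 0 → f.comp (C z * X) ≠ 0 := by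
    intro f hf h
    have := leadingCoeff_comp (p := f) (q := C z * X) (by rw [hzX]; exact one_ne_zero)
    rw [h, leadingCoeff_zero, leadingCoeff_C_mul_X] at this
    exact mul_ne_zero (leadingCoeff_ne_zero.mpr hf) (pow_ne_zero _ hz0) this.symm
  have hQ1d : Q1.natDegree = k + 1 := (hmapQ z).2
  refine ⟨C (w ^ (k + 1)) * Q1.comp (C z * X), C (w ^ (2 * (k + 1))) * R1.comp (C z * X), ?_, ?_, ?_, ?_,
    ?_, ?_, ?_, ?_⟩
  · rw [Monic, leadingCoeff_mul, leadingCoeff_C, leadingCoeff_comp (by rw [hzX]; exact one_ne_zero),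
      leadingCoeff_C_mul_X, (hmapQ z).1.leadingCoeff, hQ1d, one_mul, ← mul_pow, hwz, one_pow]
  · rw [natDegree_C_mul (hwp _), hcompd, hQ1d]
  · exact mul_ne_zero (C_ne_zero.mpr (hwp _)) (hcomp0 _ hR10)
  · rw [natDegree_C_mul (hwp _), hcompd, hR1d]
  · rw [derivative_mul, derivative_C, zero_mul, zero_add, derivative_comp, derivative_mul, derivative_C,
      derivative_X, zero_mul, zero_add, mul_one]
    have h5 : IsCoprime (R1.comp (C z * X)) ((derivative R1).comp (C z * X)) := by
      have := hcop.map (compRingHom (C z * X))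
      simpa using this
    have u1 : IsUnit (C (w ^ (2 * (k + 1))) : K[X]) := isUnit_C.mpr (hwp _).isUnit
    have u2 : IsUnit (C z : K[X]) := isUnit_C.mpr hz0.isUnit
    rw [isCoprime_mul_unit_left_left u1, isCoprime_mul_unit_left_right u1,
      isCoprime_mul_unit_left_right u2]
    exact h5
  · have h6 := congrArg (fun f => f.comp (C z * X)) (hmapp z)
    simp only [mul_comp, sub_comp, X_comp, one_comp, pow_comp, prod_comp, C_comp] at h6
    have h7 : ∀ i, (C z * X - C (u i * z) : K[X]) = C z * (X - C (u i)) := by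
      intro i; rw [map_mul]; ring
    have h8 : (C z * X - 1 : K[X]) = C z * (X - C w) := by
      rw [mul_sub, ← map_mul, mul_comm z w, hwz, map_one]
    simp only [h7, h8, Finset.prod_mul_distrib, Finset.prod_const, Finset.card_univ, Fintype.card_fin] at h6
    have h9 : (C (w ^ (2 * (k + 1))) : K[X]) * (C z ^ (2 * k + 1) * C z) = 1 := by
      rw [← pow_succ, ← map_pow, ← map_mul, show 2 * k + 1 + 1 = 2 * (k + 1) by ring, ← mul_pow, hwz,
        one_pow, map_one]
    calc (∏ i, (X - C (u i))) * (X - C w)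
        = (C (w ^ (2 * (k + 1))) : K[X]) * (C z ^ (2 * k + 1) * C z)
            * ((∏ i, (X - C (u i))) * (X - C w)) := by rw [h9, one_mul]
      _ = C (w ^ (2 * (k + 1))) * (C z ^ (2 * k + 1) * (∏ i, (X - C (u i))) * (C z * (X - C w))) := by
          ring
      _ = C (w ^ (2 * (k + 1))) * (Q1.comp (C z * X) ^ 2 - R1.comp (C z * X)) := by
          rw [← h6]
      _ = _ := by
          rw [mul_comm 2 (k + 1), pow_mul, map_pow]
          ring
  · intro s hs
    rw [map_mul, aeval_C, aeval_comp, map_mul, aeval_C, aeval_X]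
    apply mul_ne_zero
    · rw [Ne, map_eq_zero_iff _ (FaithfulSMul.algebraMap_injective K L)]
      exact hwp _
    · intro h0
      apply z3 s hs
      rw [← h0, ← coe_evalRingHom, ← eval₂_at_apply, coe_evalRingHom, eval_mul, eval_C, eval_X,
        ← eval_map, Polynomial.map_map, aeval_def, ← eval_map, hR1, Polynomial.map_map, mul_comm s]
      congr 2
      ext a
      · simp [ev]
      · simp [ev]
  · rw [eval_mul, eval_C, eval_comp, eval_mul, eval_C, eval_X, mul_comm z w, hwz]
    apply mul_ne_zero (hwp _)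
    intro h0
    apply z4
    rw [← h0, ← coe_evalRingHom, ← eval₂_at_apply, coe_evalRingHom, eval_one, ← eval_map]

end Pool.Agent.H861.Mestre
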