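import Mathlib
import Pool.Agent.H861.Mestre3

set_option autoImplicit false

namespace Pool.Agent.H861.Mestre

open Polynomial

/-- `D ^ k * R (N / D)` -/
noncomputable def hc {K : Type*} [Field K] (R N D : K[X]) (k : ℕ) : K[X] :=
  ∑ i ∈ Finset.range (k + 1), C (R.coeff i) * N ^ i * D ^ (k - i)

lemma aeval_hc {K L : Type*} [Field K] [Field L] [Algebra K L] (R N D : K[X]) (k : ℕ)
    (hR : R.natDegree ≤ k) (x u : L) (h : aeval x N = u * aeval x D) :
    aeval x (hc R N D k) = (aeval x D) ^ k * aeval u R := by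
  unfold hc
  rw [map_sum, aeval_eq_sum_range' (p := R) (n := k + 1) (by omega) u, Finset.mul_sum]
  apply Finset.sum_congr rfl
  intro i hi
  rw [Finset.mem_range] at hi
  rw [map_mul, map_mul, map_pow, map_pow, aeval_C, h, Algebra.smul_def, mul_pow]
  obtain ⟨j, rfl⟩ : ∃ j, k = i + j := ⟨k - i, by omega⟩
  rw [Nat.add_sub_cancel_left, pow_add]
  ring

lemma natDegree_hc {K : Type*} [Field K] (R N D : K[X]) (k : ℕ)
    (hR : R.coeff k ≠ 0) (hD : D.natDegree < N.natDegree) :
    (hc R N D k).natDegree = N.natDegree * k := by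
  have hN : N ≠ 0 := by rintro rfl; simp at hD
  unfold hc
  rw [Finset.sum_range_succ, Nat.sub_self, pow_zero, mul_one]
  have h1 : (C (R.coeff k) * N ^ k).natDegree = N.natDegree * k := by
    rw [natDegree_C_mul hR, natDegree_pow, mul_comm]
  rcases Nat.eq_zero_or_pos k with rfl | hk
  · simp
  rw [natDegree_add_eq_right_of_natDegree_lt, h1]
  rw [h1]
  refine lt_of_le_of_lt (natDegree_sum_le_of_forall_le (n := N.natDegree * k - 1) _ _ ?_) ?_
  · intro i hi
    rw [Finset.mem_range] at hi
    refine natDegree_mul_le.trans ?_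
    refine (add_le_add (natDegree_C_mul_le _ _) le_rfl).trans ?_
    rw [natDegree_pow, natDegree_pow]
    obtain ⟨j, rfl⟩ : ∃ j, k = i + j + 1 := ⟨k - i - 1, by omega⟩
    have h2 : i + j + 1 - i = j + 1 := by omega
    rw [h2]
    have h3 : (j + 1) * D.natDegree + (j + 1) ≤ (j + 1) * N.natDegree := by
      rw [← Nat.mul_succ]
      exact Nat.mul_le_mul_left _ hD
    have h4 : N.natDegree * (i + j + 1) = i * N.natDegree + (j + 1) * N.natDegree := by ring
    omega
  · have : 0 < N.natDegree * k := Nat.mul_pos (by omega) hk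
    omega

lemma aeval_hc_of_eq_zero {K L : Type*} [Field K] [Field L] [Algebra K L] (R N D : K[X]) (k : ℕ) (x : L)
    (h : aeval x D = 0) : aeval x (hc R N D k) = algebraMap K L (R.coeff k) * (aeval x N) ^ k := by
  unfold hc
  rw [map_sum, Finset.sum_range_succ, Nat.sub_self, pow_zero, mul_one, Finset.sum_eq_zero, zero_add,
    map_mul, aeval_C, map_pow]
  intro i hi
  rw [Finset.mem_range] at hi
  rw [map_mul, map_pow, h, zero_pow (by omega), mul_zero]

lemma deriv_hc {K : Type*} [Field K] (R N D : K[X]) (k : ℕ) :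
    D * derivative (hc R N D (k + 1)) = C (k + 1 : K) * derivative D * hc R N D (k + 1)
      + (derivative N * D - N * derivative D) * hc (derivative R) N D k := by
  have h1 : hc (derivative R) N D k = ∑ i ∈ Finset.range (k + 2),
      C ((i : K) * R.coeff i) * N ^ (i - 1) * D ^ (k + 1 - i) := by
    rw [Finset.sum_range_succ']
    simp only [Nat.cast_zero, zero_mul, map_zero, add_zero]
    unfold hc
    apply Finset.sum_congr rfl
    intro i _
    rw [coeff_derivative]
    have h2 : k + 1 - (i + 1) = k - i := by omega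
    rw [h2, Nat.add_sub_cancel, mul_comm (R.coeff (i + 1))]
    push_cast
    ring
  rw [h1]
  unfold hc
  rw [derivative_sum, Finset.mul_sum, Finset.mul_sum, Finset.mul_sum, ← Finset.sum_add_distrib]
  apply Finset.sum_congr rfl
  intro i hi
  rw [Finset.mem_range] at hi
  rcases Nat.eq_zero_or_pos i with rfl | hi0
  · simp only [pow_zero, Nat.sub_zero, Nat.cast_zero, zero_mul, map_zero, mul_zero, add_zero, mul_one]
    rw [derivative_C_mul, derivative_pow, Nat.add_sub_cancel]
    simp only [map_add, map_natCast, map_one, Nat.cast_add, Nat.cast_one]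
    ring
  · obtain ⟨a, rfl⟩ : ∃ a, i = a + 1 := ⟨i - 1, by omega⟩
    rcases Nat.eq_or_lt_of_le (Nat.lt_succ_iff.mp hi) with h3 | h3
    · have h4 : k + 1 - (a + 1) = 0 := by omega
      rw [h4, pow_zero, mul_one, mul_one, derivative_C_mul, derivative_pow, Nat.add_sub_cancel]
      have h5 : k = a := by omega
      subst h5
      simp only [map_add, map_natCast, map_one, map_mul, Nat.cast_add, Nat.cast_one]
      ring
    · obtain ⟨b, hb⟩ : ∃ b, k + 1 - (a + 1) = b + 1 := ⟨k + 1 - (a + 1) - 1, by omega⟩
      have h5 : k = a + b + 1 := by omega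
      rw [hb]
      subst h5
      rw [derivative_mul, derivative_C_mul, derivative_pow, derivative_pow, Nat.add_sub_cancel,
        Nat.add_sub_cancel]
      simp only [map_add, map_natCast, map_one, map_mul, Nat.cast_add, Nat.cast_one]
      ring

end Pool.Agent.H861.Mestre
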