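import Mathlib
import Pool.Agent.H861.Mestre4

set_option autoImplicit false

namespace Pool.Agent.H861.Mestre

open Polynomial

/-- The general construction: if the function `N / D` takes infinitely many good values in `U`,
there are `2 (k + 1)` of them at which the polynomial `R` of degree `k` is a nonzero square, and
`D ^ k * R (N / D)` is a polynomial without multiple roots which is coprime to `D`. -/
theorem general {K L : Type} [Field K] [CharZero K] [Field L] [IsAlgClosed L] [Algebra K L]
    (N D : K[X]) (hND : IsCoprime N D) (hdeg : D.natDegree < N.natDegree) (U : Set K)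
    (hU : U.Infinite) (k : ℕ) (hk : 1 ≤ k) :
    ∃ (V : Finset K) (Q R : K[X]), (V : Set K) ⊆ U ∧ V.card = 2 * (k + 1) ∧
      (∀ u ∈ V, R.eval u = (Q.eval u) ^ 2) ∧ (∀ u ∈ V, R.eval u ≠ 0) ∧
      R.natDegree = k ∧ (hc R N D k).natDegree = N.natDegree * k ∧
      IsCoprime (hc R N D k) (derivative (hc R N D k)) ∧ IsCoprime (hc R N D k) D := by
  classical
  let e : ℕ ↪ U := hU.natEmbedding U
  let u : Fin (2 * k + 1) → K := fun i => (e i : K)
  have hu : Function.Injective u := fun i j h => by
    have := e.injective (Subtype.ext h)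
    exact Fin.ext this
  set W : K[X] := wronskian N D with hW
  have hW0 : W ≠ 0 := by
    intro h0
    have := (hND.wronskian_eq_zero_iff).mp h0
    have h1 := Polynomial.derivative_eq_zero.mp this.1
    omega
  let S : Finset L := (Finset.univ.image fun i => algebraMap K L (u i)) ∪
    ((W.map (algebraMap K L)).roots.toFinset.image fun x => aeval x N / aeval x D)
  have hbad := perturb k u S
  have hinf : (U \ ({w : K | ¬ ∃ Q R : K[X], Q.Monic ∧ Q.natDegree = k + 1 ∧ R ≠ 0 ∧ R.natDegree = k ∧
      IsCoprime R (derivative R) ∧ (∏ i, (X - C (u i))) * (X - C w) = Q ^ 2 - R ∧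
      (∀ s ∈ S, aeval s R ≠ 0) ∧ R.eval w ≠ 0} ∪ Set.range u)).Infinite :=
    hU.sdiff (hbad.union (Set.finite_range u))
  obtain ⟨w, hwU, hw⟩ := hinf.nonempty
  rw [Set.mem_union, not_or] at hw
  obtain ⟨hw1, hw2⟩ := hw
  rw [Set.mem_ofPred_eq, not_not] at hw1
  obtain ⟨Q, R, hQ, hQd, hR0, hRd, hRc, hp, hRS, hRw⟩ := hw1
  have hw3 : w ∉ Finset.univ.image u := by
    intro h
    rw [Finset.mem_image] at h
    obtain ⟨i, _, hi⟩ := h
    exact hw2 ⟨i, hi⟩
  refine ⟨insert w (Finset.univ.image u), Q, R, ?_, ?_, ?_, ?_, hRd, ?_, ?_, ?_⟩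
  · intro x hx
    rw [Finset.mem_coe, Finset.mem_insert, Finset.mem_image] at hx
    rcases hx with rfl | ⟨i, _, rfl⟩
    · exact hwU
    · exact (e i).2
  · rw [Finset.card_insert_of_notMem hw3, Finset.card_image_of_injective _ hu, Finset.card_univ,
      Fintype.card_fin]
    ring
  · intro x hx
    have h1 : ((∏ i, (X - C (u i))) * (X - C w)).eval x = 0 := by
      rw [Finset.mem_insert, Finset.mem_image] at hx
      rw [eval_mul, eval_prod]
      rcases hx with rfl | ⟨i, _, rfl⟩
      · simp
      · rw [Finset.prod_eq_zero (Finset.mem_univ i) (by simp), zero_mul]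
    rw [hp, eval_sub, eval_pow] at h1
    linear_combination -h1
  · intro x hx h0
    rw [Finset.mem_insert, Finset.mem_image] at hx
    rcases hx with rfl | ⟨i, _, rfl⟩
    · exact hRw h0
    · apply hRS (algebraMap K L (u i)) (Finset.mem_union_left _ (Finset.mem_image_of_mem _ (Finset.mem_univ i)))
      rw [aeval_algebraMap_apply, coe_aeval_eq_eval, h0, map_zero]
  · apply natDegree_hc _ _ _ _ _ hdeg
    rw [← hRd]
    exact leadingCoeff_ne_zero.mpr hR0
  · rw [Polynomial.isCoprime_iff_aeval_ne_zero_of_isAlgClosed K L]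
    intro x
    by_contra hcon
    rw [not_or, not_not, not_not] at hcon
    obtain ⟨hB, hB'⟩ := hcon
    by_cases hDx : aeval x D = 0
    · rw [aeval_hc_of_eq_zero R N D k x hDx] at hB
      rcases mul_eq_zero.mp hB with h | h
      · rw [map_eq_zero_iff _ (FaithfulSMul.algebraMap_injective K L), ← hRd] at h
        exact hR0 (leadingCoeff_eq_zero.mp h)
      · have h1 := eq_zero_of_pow_eq_zero h
        have := aeval_ne_zero_of_isCoprime hND x
        rcases this with h2 | h2
        · exact h2 h1
        · exact h2 hDx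
    · have hNx : aeval x N = (aeval x N / aeval x D) * aeval x D := by
        rw [div_mul_cancel₀ _ hDx]
      rw [aeval_hc R N D k hRd.le x _ hNx] at hB
      have hRu : aeval (aeval x N / aeval x D) R = 0 := by
        rcases mul_eq_zero.mp hB with h | h
        · exact absurd (eq_zero_of_pow_eq_zero h) hDx
        · exact h
      obtain ⟨j, rfl⟩ : ∃ j, k = j + 1 := ⟨k - 1, by omega⟩
      have h3 := congrArg (aeval x) (deriv_hc R N D j)
      rw [map_mul, map_add, map_mul, map_mul, map_mul, hB', aeval_hc R N D (j + 1) hRd.le x _ hNx, hRu,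
        aeval_hc (derivative R) N D j (by rw [natDegree_derivative, hRd]; omega) x _ hNx, mul_zero,
        mul_zero, mul_zero, zero_add] at h3
      have hR'u : aeval (aeval x N / aeval x D) (derivative R) ≠ 0 := by
        rcases aeval_ne_zero_of_isCoprime hRc (aeval x N / aeval x D) with h | h
        · exact absurd hRu h
        · exact h
      have hWx : aeval x W = 0 := by
        rcases mul_eq_zero.mp h3.symm with h | h
        · rw [hW, wronskian]
          rw [map_sub, map_mul, map_mul] at h ⊢
          linear_combination -h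
        · rcases mul_eq_zero.mp h with h | h
          · exact absurd (eq_zero_of_pow_eq_zero h) hDx
          · exact absurd h hR'u
      apply hRS (aeval x N / aeval x D) _ hRu
      apply Finset.mem_union_right
      rw [Finset.mem_image]
      refine ⟨x, ?_, rfl⟩
      rw [Multiset.mem_toFinset, mem_roots_map hW0, ← aeval_def]
      exact hWx
  · rw [Polynomial.isCoprime_iff_aeval_ne_zero_of_isAlgClosed K L]
    intro x
    by_contra hcon
    rw [not_or, not_not, not_not] at hcon
    obtain ⟨hB, hDx⟩ := hcon
    rw [aeval_hc_of_eq_zero R N D k x hDx] at hB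
    rcases mul_eq_zero.mp hB with h | h
    · rw [map_eq_zero_iff _ (FaithfulSMul.algebraMap_injective K L), ← hRd] at h
      exact hR0 (leadingCoeff_eq_zero.mp h)
    · have h1 := eq_zero_of_pow_eq_zero h
      rcases aeval_ne_zero_of_isCoprime hND x with h2 | h2
      · exact h2 h1
      · exact h2 hDx

end Pool.Agent.H861.Mestre
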