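import Mathlib
import Pool.Agent.H861.Mestre5

set_option autoImplicit false

namespace Pool.Agent.H861.Mestre

open WeierstrassCurve WeierstrassCurve.Affine

/-- the elliptic curve `y ^ 2 = x (x + 15 ^ 4) (x + 8 ^ 4)` over `ℚ` -/
def E : WeierstrassCurve.Affine ℚ := ⟨0, 54721, 0, 207360000, 0⟩

lemma E_ne : E.Δ ≠ 0 := by
  simp only [WeierstrassCurve.Δ, WeierstrassCurve.b₂, WeierstrassCurve.b₄, WeierstrassCurve.b₆,
    WeierstrassCurve.b₈, E]
  norm_num

lemma E_iff {x y : ℚ} : E.Nonsingular x y ↔ y ^ 2 = x ^ 3 + 54721 * x ^ 2 + 207360000 * x := by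
  rw [← equation_iff_nonsingular_of_Δ_ne_zero E_ne, equation_iff]
  simp only [E]
  constructor <;> intro h <;> linarith

lemma E_negY (x y : ℚ) : E.negY x y = -y := by
  simp [negY, E]

lemma E_addX (x₁ x₂ l : ℚ) : E.addX x₁ x₂ l = l ^ 2 - 54721 - x₁ - x₂ := by
  simp [addX, E]

lemma E_addY (x₁ x₂ y₁ l : ℚ) : E.addY x₁ x₂ y₁ l = -(l * (E.addX x₁ x₂ l - x₁) + y₁) := by
  rw [addY, negAddY, E_negY]

lemma E_slope_self {x y : ℚ} (hy : y ≠ 0) :
    E.slope x x y y = (3 * x ^ 2 + 2 * 54721 * x + 207360000) / (2 * y) := by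
  rw [slope_of_Y_ne rfl (by rw [E_negY]; intro h; apply hy; linarith), E_negY]
  simp only [E]
  congr 1 <;> ring

noncomputable def Q8 : E.Point := .some 96000 37536000 (E_iff.mpr (by norm_num))
noncomputable def Q4 : E.Point := .some 14400 4161600 (E_iff.mpr (by norm_num))
noncomputable def Q2 : E.Point := .some 0 0 (E_iff.mpr (by norm_num))
noncomputable def τ : E.Point := .some (-50625) 0 (E_iff.mpr (by norm_num))
noncomputable def P0 : E.Point := .some (-12558375/256) (7619227875/4096) (E_iff.mpr (by norm_num))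

lemma Q2_add : Q2 + Q2 = 0 := by
  unfold Q2
  exact Point.add_self_of_Y_eq (by rw [E_negY]; norm_num)

lemma τ_add : τ + τ = 0 := by
  unfold τ
  exact Point.add_self_of_Y_eq (by rw [E_negY]; norm_num)

lemma Q4_add : Q4 + Q4 = Q2 := by
  unfold Q4 Q2
  rw [Point.add_self_of_Y_ne (by rw [E_negY]; norm_num)]
  rw [Point.some.injEq, E_addY, E_addX, E_slope_self (by norm_num)]
  norm_num

lemma Q8_add : Q8 + Q8 = Q4 := by
  unfold Q8 Q4
  rw [Point.add_self_of_Y_ne (by rw [E_negY]; norm_num)]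
  rw [Point.some.injEq, E_addY, E_addX, E_slope_self (by norm_num)]
  norm_num

/-- the duplication formula -/
lemma dbl {x y : ℚ} (h : E.Nonsingular x y) (hy : y ≠ 0) :
    ∃ (x' y' : ℚ) (h' : E.Nonsingular x' y'), Point.some x y h + Point.some x y h = Point.some x' y' h' ∧
      x' * (4 * y ^ 2) = (x ^ 2 - 207360000) ^ 2 := by
  have hy2 : y ≠ E.negY x y := by rw [E_negY]; intro h; apply hy; linarith
  refine ⟨_, _, _, Point.add_self_of_Y_ne hy2, ?_⟩
  rw [E_addX, E_slope_self hy]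
  have h1 := E_iff.mp h
  field_simp
  linear_combination (-(875536 + 32 * x)) * h1

/-- adding the point of order four -/
lemma add_Q4 {x y : ℚ} (h : E.Nonsingular x y) (hx : x ≠ 14400) :
    ∃ (x' y' : ℚ) (h' : E.Nonsingular x' y'), Point.some x y h + Q4 = Point.some x' y' h' ∧
      (x' - 14400) ^ 2 * (x - 14400) ^ 2 = 69360 ^ 2 * (x * x') := by
  unfold Q4
  refine ⟨_, _, _, Point.add_of_X_ne hx, ?_⟩
  rw [E_addX, slope_of_X_ne hx]
  have h1 := E_iff.mp h
  have h2 : x - 14400 ≠ 0 := sub_ne_zero.mpr hx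
  have h3 : ((y - 4161600) / (x - 14400)) ^ 2 - 54721 - x - 14400 =
      14400 + 2 * 14400 * 289 * (289 * x - y) / (x - 14400) ^ 2 := by
    field_simp
    linear_combination h1
  rw [h3]
  field_simp
  linear_combination (69360 ^ 2) * h1

end Pool.Agent.H861.Mestre
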