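import Mathlib
import Pool.Agent.H861.Mestre6

set_option autoImplicit false

namespace Pool.Agent.H861.Mestre

open WeierstrassCurve WeierstrassCurve.Affine Polynomial

/-- the `x`-coordinate -/
def xc : E.Point → ℚ
  | .zero => 0
  | .some x _ _ => x

/-- `R` is not a multiple of `Q4` -/
def Fine (R : E.Point) : Prop := R ≠ 0 ∧ xc R ≠ 0 ∧ xc R ≠ 14400

/-- the function `t + c ^ 2 / t`, `t = (x - s) ^ 2 / x` -/
noncomputable def G (R : E.Point) : ℚ :=
  (xc R - 14400) ^ 2 / xc R + 69360 ^ 2 * xc R / (xc R - 14400) ^ 2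

lemma Q4_four : (4 : ℕ) • Q4 = 0 := by
  rw [show (4 : ℕ) = 2 * 2 by norm_num, mul_nsmul, two_nsmul, two_nsmul, Q4_add, Q2_add]

lemma Q4_ne : Q4 ≠ 0 := Point.some_ne_zero _
lemma Q2_ne : Q2 ≠ 0 := Point.some_ne_zero _
lemma τ_ne : τ ≠ 0 := Point.some_ne_zero _

lemma τ_ne_Q2 : τ ≠ Q2 := by
  unfold τ Q2
  rw [Ne, Point.some.injEq]
  norm_num

lemma fine_of {R : E.Point} (h : (4 : ℕ) • R ≠ 0) : Fine R := by
  refine ⟨?_, ?_, ?_⟩
  · rintro rfl
    exact h (nsmul_zero _)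
  · intro hx
    rcases R with _ | ⟨x, y, hR⟩
    · exact h (nsmul_zero _)
    · have hx : x = 0 := hx
      subst hx
      have h1 := E_iff.mp hR
      have hy : y = 0 := by
        have : y ^ 2 = 0 := by rw [h1]; norm_num
        exact pow_eq_zero_iff two_ne_zero |>.mp this
      subst hy
      apply h
      rw [show (4 : ℕ) = 2 * 2 by norm_num, mul_nsmul, two_nsmul]
      change (2 : ℕ) • (Q2 + Q2) = 0
      rw [Q2_add, nsmul_zero]
  · intro hx
    rcases R with _ | ⟨x, y, hR⟩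
    · exact h (nsmul_zero _)
    · have hx : x = 14400 := hx
      subst hx
      have h1 := E_iff.mp hR
      have hy : (y - 4161600) * (y + 4161600) = 0 := by
        linear_combination h1
      rcases mul_eq_zero.mp hy with hy | hy
      · have hy : y = 4161600 := by linarith
        subst hy
        exact h Q4_four
      · have hy : y = -4161600 := by linarith
        subst hy
        apply h
        have h2 : Point.some _ _ hR = -Q4 := by
          unfold Q4
          rw [Point.neg_some, Point.some.injEq, E_negY]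
          norm_num
        rw [h2, neg_nsmul, Q4_four, neg_zero]

lemma G_add_Q4 {R : E.Point} (h : Fine R) : Fine (R + Q4) ∧ G (R + Q4) = G R := by
  obtain ⟨h0, h1, h2⟩ := h
  rcases R with _ | ⟨x, y, hR⟩
  · exact absurd rfl h0
  have h1 : x ≠ 0 := h1
  have h2 : x ≠ 14400 := h2
  obtain ⟨x', y', h', he, hr⟩ := add_Q4 hR h2
  rw [he]
  have h3 : x - 14400 ≠ 0 := sub_ne_zero.mpr h2
  have h4 : x' ≠ 0 := by
    rintro rfl
    rw [mul_zero, mul_zero] at hr
    rcases mul_eq_zero.mp hr with h | h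
    · norm_num at h
    · exact pow_ne_zero 2 h3 h
  have h5 : x' ≠ 14400 := by
    rintro rfl
    rw [sub_self, zero_pow two_ne_zero, zero_mul] at hr
    have := mul_ne_zero (show (69360 ^ 2 : ℚ) ≠ 0 by norm_num) (mul_ne_zero h1 h4)
    exact this hr.symm
  have h6 : x' - 14400 ≠ 0 := sub_ne_zero.mpr h5
  refine ⟨⟨Point.some_ne_zero _, h4, h5⟩, ?_⟩
  change (x' - 14400) ^ 2 / x' + 69360 ^ 2 * x' / (x' - 14400) ^ 2
    = (x - 14400) ^ 2 / x + 69360 ^ 2 * x / (x - 14400) ^ 2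
  have h7 : (x' - 14400) ^ 2 / x' = 69360 ^ 2 * x / (x - 14400) ^ 2 := by
    field_simp
    linear_combination hr
  have h8 : (x - 14400) ^ 2 / x = 69360 ^ 2 * x' / (x' - 14400) ^ 2 := by
    field_simp
    linear_combination hr
  rw [h7, ← h8]
  ring

lemma G_add_nsmul {R : E.Point} (h : Fine R) (i : ℕ) : Fine (R + i • Q4) ∧ G (R + i • Q4) = G R := by
  induction i with
  | zero => rw [zero_nsmul, add_zero]; exact ⟨h, rfl⟩
  | succ i ih =>
    rw [succ_nsmul, ← add_assoc]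
    obtain ⟨h1, h2⟩ := G_add_Q4 ih.1
    exact ⟨h1, h2.trans ih.2⟩

/-- `x ^ 3 + 54721 x ^ 2 + 207360000 x` -/
noncomputable def f : ℚ[X] := X * (X + C 50625) * (X + C 4096)

noncomputable def A : ℚ[X] := (X - C 14400) ^ 4 - C (69360 ^ 2) * X ^ 2
noncomputable def B0 : ℚ[X] := X ^ 2 - C 207360000
noncomputable def DD : ℚ[X] := C 4 * f * (B0 * A) ^ 2
noncomputable def NN : ℚ[X] := A ^ 4 + C (16 * 69360 ^ 2) * (B0 ^ 2 * f) ^ 2

lemma f_eval (x : ℚ) : f.eval x = x ^ 3 + 54721 * x ^ 2 + 207360000 * x := by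
  simp only [f, eval_mul, eval_add, eval_X, eval_C]
  ring

lemma A_eval (x : ℚ) : A.eval x = (x - 14400) ^ 4 - 69360 ^ 2 * x ^ 2 := by
  simp only [A, eval_sub, eval_mul, eval_pow, eval_X, eval_C]

lemma B0_eval (x : ℚ) : B0.eval x = x ^ 2 - 207360000 := by
  simp only [B0, eval_sub, eval_pow, eval_X, eval_C]

lemma DD_eval (x : ℚ) : DD.eval x = 4 * f.eval x * (B0.eval x * A.eval x) ^ 2 := by
  simp only [DD, eval_mul, eval_pow, eval_C]

lemma NN_eval (x : ℚ) :
    NN.eval x = (A.eval x) ^ 4 + 16 * 69360 ^ 2 * ((B0.eval x) ^ 2 * f.eval x) ^ 2 := by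
  simp only [NN, eval_mul, eval_pow, eval_C, eval_add]

/-- the values at the `x`-coordinate of a point which is not of order dividing `8` -/
lemma values {P : E.Point} (h : (8 : ℕ) • P ≠ 0) :
    ∃ y : ℚ, y ≠ 0 ∧ y ^ 2 = f.eval (xc P) ∧
      DD.eval (xc P) = (2 * y * (B0.eval (xc P) * A.eval (xc P))) ^ 2 ∧ DD.eval (xc P) ≠ 0 ∧
      NN.eval (xc P) = G ((2 : ℕ) • P) * DD.eval (xc P) := by
  have hf : Fine ((2 : ℕ) • P) := fine_of (by
    rw [← mul_nsmul]; exact h)
  rcases P with _ | ⟨x, y, hP⟩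
  · exact absurd (nsmul_zero _) h
  have h1 := E_iff.mp hP
  have hy : y ≠ 0 := by
    rintro rfl
    apply h
    rw [show (8 : ℕ) = 2 * 4 by norm_num, mul_nsmul, two_nsmul,
      Point.add_self_of_Y_eq (by rw [E_negY]; norm_num), nsmul_zero]
  obtain ⟨x', y', h', he, hr⟩ := dbl hP hy
  rw [two_nsmul, he] at hf
  obtain ⟨-, hx0, hxs⟩ := hf
  have hx0 : x' ≠ 0 := hx0
  have hxs : x' ≠ 14400 := hxs
  refine ⟨y, hy, ?_, ?_⟩
  · change y ^ 2 = f.eval x
    rw [f_eval, h1]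
  · change DD.eval x = (2 * y * (B0.eval x * A.eval x)) ^ 2 ∧ DD.eval x ≠ 0 ∧
      NN.eval x = G ((2 : ℕ) • Point.some x y hP) * DD.eval x
    have hfe : f.eval x = y ^ 2 := by rw [f_eval, h1]
    have hA : A.eval x = 4 * y ^ 2 * (x' - 14400) := by
      rw [A_eval]
      linear_combination -hr + 57600 * h1
    have hB : (B0.eval x) ^ 2 = x' * (4 * y ^ 2) := by
      rw [B0_eval, hr]
    have hD : DD.eval x = (2 * y * (B0.eval x * A.eval x)) ^ 2 := by
      rw [DD_eval, hfe]; ring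
    have hxs' : x' - 14400 ≠ 0 := sub_ne_zero.mpr hxs
    have hA0 : A.eval x ≠ 0 := by
      rw [hA]
      exact mul_ne_zero (mul_ne_zero (by norm_num) (pow_ne_zero _ hy)) hxs'
    have hB0 : B0.eval x ≠ 0 := by
      intro h0
      rw [h0, zero_pow two_ne_zero] at hB
      exact mul_ne_zero hx0 (mul_ne_zero (by norm_num) (pow_ne_zero _ hy)) hB.symm
    refine ⟨hD, ?_, ?_⟩
    · rw [hD]
      exact pow_ne_zero _ (mul_ne_zero (mul_ne_zero (by norm_num) hy) (mul_ne_zero hB0 hA0))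
    · rw [two_nsmul, he]
      change NN.eval x = ((x' - 14400) ^ 2 / x' + 69360 ^ 2 * x' / (x' - 14400) ^ 2) * DD.eval x
      rw [NN_eval, hD, hfe]
      have e1 : (2 * y * (B0.eval x * A.eval x)) ^ 2 = 4 * y ^ 2 * (B0.eval x) ^ 2 * (A.eval x) ^ 2 := by
        ring
      have e2 : ((B0.eval x) ^ 2 * y ^ 2) ^ 2 = ((B0.eval x) ^ 2) ^ 2 * y ^ 4 := by ring
      rw [e1, e2, hA, hB]
      field_simp
      ring

end Pool.Agent.H861.Mestre
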