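import Mathlib
import Pool.Agent.H861.Mestre7

set_option autoImplicit false

namespace Pool.Agent.H861.Mestre

open WeierstrassCurve WeierstrassCurve.Affine Polynomial

/-- the torsion point `i Q8 + j τ` -/
noncomputable def T (p : Fin 8 × Fin 2) : E.Point := (p.1 : ℕ) • Q8 + (p.2 : ℕ) • τ

lemma Q8_four : (4 : ℕ) • Q8 = Q2 := by
  rw [show (4 : ℕ) = 2 * 2 by norm_num, mul_nsmul, two_nsmul, two_nsmul, Q8_add, Q4_add]

lemma Q8_eight : (8 : ℕ) • Q8 = 0 := by
  rw [show (8 : ℕ) = 4 * 2 by norm_num, mul_nsmul, Q8_four, two_nsmul, Q2_add]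

lemma τ_two : (2 : ℕ) • τ = 0 := by rw [two_nsmul, τ_add]

lemma order_Q8 : addOrderOf Q8 = 8 := by
  have := addOrderOf_eq_prime_pow (x := Q8) (p := 2) (n := 2) (hp := ⟨Nat.prime_two⟩) (by
    norm_num
    rw [Q8_four]; exact Q2_ne) (by norm_num; exact Q8_eight)
  rw [this]
  norm_num

lemma T_eight (p : Fin 8 × Fin 2) : (8 : ℕ) • T p = 0 := by
  unfold T
  rw [nsmul_add, ← mul_nsmul, ← mul_nsmul, mul_comm, mul_nsmul, Q8_eight, nsmul_zero, zero_add,
    show (p.2 : ℕ) * 8 = 2 * (4 * p.2) by ring, mul_nsmul, τ_two, nsmul_zero]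

lemma T_two (p : Fin 8 × Fin 2) : (2 : ℕ) • T p = (p.1 : ℕ) • Q4 := by
  unfold T
  rw [nsmul_add, ← mul_nsmul, ← mul_nsmul, mul_comm, mul_nsmul, two_nsmul, Q8_add, 
    mul_comm, mul_nsmul, τ_two, nsmul_zero, add_zero]

lemma Q8_ne_τ {i j : ℕ} (hi : i < 8) (hj : j < 8) (h : i • Q8 = j • Q8 + τ) : False := by
  have h1 : (2 * i) • Q8 = (2 * j) • Q8 := by
    rw [two_mul, two_mul, add_nsmul, add_nsmul, h]
    have := τ_add
    calc j • Q8 + τ + (j • Q8 + τ) = j • Q8 + j • Q8 + (τ + τ) := by abel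
      _ = _ := by rw [this, add_zero]
  rw [nsmul_eq_nsmul_iff_modEq, order_Q8] at h1
  have h2 : i % 4 = j % 4 := by
    unfold Nat.ModEq at h1
    omega
  have h3 : i = j ∨ i = j + 4 ∨ j = i + 4 := by omega
  rcases h3 with rfl | rfl | rfl
  · exact τ_ne (left_eq_add.mp h)
  · rw [add_nsmul, Q8_four] at h
    exact τ_ne_Q2 (add_left_cancel h).symm
  · rw [add_nsmul, Q8_four, add_assoc] at h
    have h4 : Q2 + τ = 0 := left_eq_add.mp h
    apply τ_ne_Q2
    have h5 : τ = -Q2 := (neg_eq_of_add_eq_zero_right h4).symm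
    rw [h5]
    exact (neg_eq_of_add_eq_zero_right Q2_add)

lemma T_inj : Function.Injective T := by
  rintro ⟨i, j⟩ ⟨i', j'⟩ h
  unfold T at h
  simp only at h
  have key : ∀ i i' : Fin 8, (i : ℕ) • Q8 = (i' : ℕ) • Q8 → i = i' := by
    intro i i' h
    rw [nsmul_eq_nsmul_iff_modEq, order_Q8] at h
    unfold Nat.ModEq at h
    ext
    omega
  fin_cases j <;> fin_cases j' <;> simp only [zero_nsmul, add_zero, one_nsmul] at h
  · rw [key i i' h]
  · exact (Q8_ne_τ i.2 i'.2 h).elim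
  · exact (Q8_ne_τ i'.2 i.2 h.symm).elim
  · rw [key i i' (add_right_cancel h)]

/-- the `x`-coordinates in a fibre are different -/
lemma xc_inj {P : E.Point} (h : (16 : ℕ) • P ≠ 0) : Function.Injective fun p => xc (P + T p) := by
  intro p q hpq
  simp only at hpq
  have hne : ∀ p, P + T p ≠ 0 := by
    intro p hp
    apply h
    have : (16 : ℕ) • (P + T p) = 16 • P := by
      rw [nsmul_add, show (16 : ℕ) = 8 * 2 by norm_num, mul_nsmul (T p), T_eight, nsmul_zero, add_zero]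
    rw [← this, hp, nsmul_zero]
  have h1 : P + T p = P + T q ∨ P + T p = -(P + T q) := by
    rcases e1 : P + T p with _ | ⟨x, y, hx⟩
    · exact absurd e1 (hne p)
    · rcases e2 : P + T q with _ | ⟨x', y', hx'⟩
      · exact absurd e2 (hne q)
      · rw [e1, e2] at hpq
        exact Point.X_eq_iff.mp hpq
  rcases h1 with h1 | h1
  · exact T_inj (add_left_cancel h1)
  · exfalso
    apply h
    have h2 : (2 : ℕ) • P = -(T p + T q) := by
      have : P + T p + (P + T q) = 0 := by rw [h1]; exact neg_add_cancel _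
      rw [two_nsmul]
      rw [eq_neg_iff_add_eq_zero, ← this]
      abel
    rw [show (16 : ℕ) = 2 * 8 by norm_num, mul_nsmul, h2, neg_nsmul, nsmul_add, T_eight, T_eight, add_zero,
      neg_zero]

/-- the fibre of `N / D` above a good value -/
lemma fibre {P : E.Point} (h : (16 : ℕ) • P ≠ 0) : ∃ X : Finset ℚ, X.card = 16 ∧ ∀ x ∈ X,
    ∃ y z : ℚ, y ≠ 0 ∧ y ^ 2 = f.eval x ∧ DD.eval x = z ^ 2 ∧ DD.eval x ≠ 0 ∧
      NN.eval x = G ((2 : ℕ) • P) * DD.eval x := by
  classical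
  refine ⟨Finset.univ.image fun p => xc (P + T p), ?_, ?_⟩
  · rw [Finset.card_image_of_injective _ (xc_inj h), Finset.card_univ, Fintype.card_prod, Fintype.card_fin,
      Fintype.card_fin]
  · intro x hx
    rw [Finset.mem_image] at hx
    obtain ⟨p, -, rfl⟩ := hx
    have h8 : (8 : ℕ) • (P + T p) ≠ 0 := by
      rw [nsmul_add, T_eight, add_zero]
      intro h0
      apply h
      rw [show (16 : ℕ) = 8 * 2 by norm_num, mul_nsmul, h0, nsmul_zero]
    obtain ⟨y, hy, hyf, hD, hD0, hN⟩ := values h8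
    refine ⟨y, _, hy, hyf, hD, hD0, ?_⟩
    rw [hN, nsmul_add, T_two]
    rw [(G_add_nsmul (fine_of (R := (2 : ℕ) • P) (by
      rw [← mul_nsmul]
      intro h0
      apply h
      rw [show (16 : ℕ) = 2 * 4 * 2 by norm_num, mul_nsmul, h0, nsmul_zero])) _).2]

end Pool.Agent.H861.Mestre
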