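import Mathlib
import Pool.Agent.H861.Mestre8

set_option autoImplicit false

namespace Pool.Agent.H861.Mestre

open WeierstrassCurve WeierstrassCurve.Affine Polynomial

instance : Fact (Nat.Prime 2) := ⟨Nat.prime_two⟩

lemma norm_dbl {x y x' : ℚ} (h1 : y ^ 2 = x ^ 3 + 54721 * x ^ 2 + 207360000 * x)
    (hx : 1 < padicNorm 2 x) (hr : x' * (4 * y ^ 2) = (x ^ 2 - 207360000) ^ 2) :
    padicNorm 2 x' = 4 * padicNorm 2 x := by
  have hpow : ∀ (n : ℕ) (q : ℚ), padicNorm 2 (q ^ n) = (padicNorm 2 q) ^ n := by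
    intro n q
    induction n with
    | zero => simp
    | succ n ih => rw [pow_succ, pow_succ, padicNorm.mul, ih]
  set v := padicNorm 2 x with hv
  have hv0 : 0 < v := by linarith
  have i1 : padicNorm 2 (54721 : ℚ) ≤ 1 := by
    have := padicNorm.of_int (p := 2) 54721
    exact_mod_cast this
  have i2 : padicNorm 2 (207360000 : ℚ) ≤ 1 := by
    have := padicNorm.of_int (p := 2) 207360000
    exact_mod_cast this
  have i4 : padicNorm 2 (4 : ℚ) = 1 / 4 := by
    have h2 : padicNorm 2 ((2 : ℕ) : ℚ) = ((2 : ℕ) : ℚ)⁻¹ := padicNorm.padicNorm_p_of_prime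
    rw [show (4 : ℚ) = ((2 : ℕ) : ℚ) * ((2 : ℕ) : ℚ) by norm_num, padicNorm.mul, h2]
    norm_num
  have hv12 : v < v ^ 2 := by nlinarith
  have hv23 : v ^ 2 < v ^ 3 := by nlinarith [sq_nonneg v]
  have e1 : padicNorm 2 (x ^ 2 - 207360000) = v ^ 2 := by
    rw [sub_eq_add_neg, padicNorm.add_eq_max_of_ne]
    · rw [hpow, padicNorm.neg, ← hv, max_eq_left]
      linarith
    · rw [hpow, padicNorm.neg, ← hv]
      intro h; linarith
  have e2 : padicNorm 2 (y ^ 2) = v ^ 3 := by
    have e3 : padicNorm 2 (54721 * x ^ 2 + 207360000 * x) ≤ v ^ 2 := by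
      refine padicNorm.nonarchimedean.trans (max_le ?_ ?_)
      · rw [padicNorm.mul, hpow, ← hv]
        have := mul_le_mul_of_nonneg_right i1 (sq_nonneg v)
        linarith
      · rw [padicNorm.mul, ← hv]
        have := mul_le_mul_of_nonneg_right i2 hv0.le
        linarith
    rw [h1, add_assoc, padicNorm.add_eq_max_of_ne]
    · rw [hpow, ← hv, max_eq_left]
      linarith
    · rw [hpow, ← hv]
      intro h; linarith
  have e5 := congrArg (padicNorm 2) hr
  rw [padicNorm.mul, padicNorm.mul, e2, i4, hpow, e1] at e5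
  have hv3 : v ^ 3 ≠ 0 := by positivity
  have e6 : padicNorm 2 x' * v ^ 3 = (4 * v) * v ^ 3 := by linarith
  exact mul_right_cancel₀ hv3 e6

lemma norm_P0 : padicNorm 2 (-12558375 / 256 : ℚ) = 256 := by
  rw [padicNorm.div]
  have h1 : padicNorm 2 (-12558375 : ℚ) = 1 := by
    have := (padicNorm.int_eq_one_iff (p := 2) (-12558375)).mpr (by norm_num)
    exact_mod_cast this
  have h2 : padicNorm 2 ((2 : ℕ) : ℚ) = ((2 : ℕ) : ℚ)⁻¹ := padicNorm.padicNorm_p_of_prime
  have h3 : padicNorm 2 (256 : ℚ) = 1 / 256 := by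
    rw [show (256 : ℚ) = ((2 : ℕ) : ℚ) * ((2 : ℕ) : ℚ) * ((2 : ℕ) : ℚ) * ((2 : ℕ) : ℚ) *
      ((2 : ℕ) : ℚ) * ((2 : ℕ) : ℚ) * ((2 : ℕ) : ℚ) * ((2 : ℕ) : ℚ) by norm_num]
    simp only [padicNorm.mul, h2]
    norm_num
  rw [h1, h3]
  norm_num

lemma P0_mul (j : ℕ) : ∃ (x y : ℚ) (h : E.Nonsingular x y), (2 ^ j : ℕ) • P0 = Point.some x y h ∧
    padicNorm 2 x = 4 ^ j * 256 := by
  induction j with
  | zero =>
    refine ⟨-12558375/256, 7619227875/4096, E_iff.mpr (by norm_num), ?_, ?_⟩
    · rw [pow_zero, one_nsmul]; rfl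
    · rw [norm_P0]; norm_num
  | succ j ih =>
    obtain ⟨x, y, h, he, hv⟩ := ih
    have hx : 1 < padicNorm 2 x := by
      rw [hv]
      have : (1 : ℚ) ≤ 4 ^ j := one_le_pow₀ (by norm_num)
      linarith
    have h1 := E_iff.mp h
    by_cases hy : y = 0
    · exfalso
      subst hy
      have := norm_dbl h1 hx (x' := 0) (by
        exfalso
        -- `x ^ 3 + ... = 0` is impossible
        have hx0 : x ≠ 0 := by rintro rfl; rw [padicNorm.zero] at hx; linarith
        have h3 : (x + 50625) * (x + 4096) = 0 := by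
          have h4 : x * ((x + 50625) * (x + 4096)) = 0 := by linear_combination -h1
          exact (mul_eq_zero.mp h4).resolve_left hx0
        rcases mul_eq_zero.mp h3 with h5 | h5
        · have h6 : x = ((-50625 : ℤ) : ℚ) := by push_cast; linarith
          rw [h6] at hx
          have := padicNorm.of_int (p := 2) (-50625)
          linarith
        · have h6 : x = ((-4096 : ℤ) : ℚ) := by push_cast; linarith
          rw [h6] at hx
          have := padicNorm.of_int (p := 2) (-4096)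
          linarith)
      rw [padicNorm.zero] at this
      linarith
    · obtain ⟨x', y', h', he', hr⟩ := dbl h hy
      refine ⟨x', y', h', ?_, ?_⟩
      · rw [pow_succ, mul_comm, mul_nsmul, two_nsmul, nsmul_add, he, he']
      · rw [norm_dbl h1 hx hr, hv]
        ring

/-- the set of the good values of `N / D` -/
def U : Set ℚ := {u | ∃ P : E.Point, (16 : ℕ) • P ≠ 0 ∧ G ((2 : ℕ) • P) = u}

lemma f_natDegree : f.natDegree = 3 := by
  unfold f
  rw [natDegree_mul, natDegree_mul, natDegree_X, natDegree_X_add_C, natDegree_X_add_C]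
  · exact X_ne_zero
  · exact X_add_C_ne_zero _
  · exact mul_ne_zero X_ne_zero (X_add_C_ne_zero _)
  · exact X_add_C_ne_zero _

lemma B0_natDegree : B0.natDegree = 2 := by
  unfold B0
  exact natDegree_X_pow_sub_C

lemma A_natDegree : A.natDegree = 4 := by
  unfold A
  compute_degree!

lemma f_ne : f ≠ 0 := by
  intro h; have := f_natDegree; rw [h, natDegree_zero] at this; omega
lemma B0_ne : B0 ≠ 0 := by
  intro h; have := B0_natDegree; rw [h, natDegree_zero] at this; omega
lemma A_ne : A ≠ 0 := by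
  intro h; have := A_natDegree; rw [h, natDegree_zero] at this; omega

lemma DD_natDegree : DD.natDegree = 15 := by
  unfold DD
  rw [mul_assoc, natDegree_C_mul (by norm_num), natDegree_mul f_ne (pow_ne_zero _ (mul_ne_zero B0_ne A_ne)),
    natDegree_pow, natDegree_mul B0_ne A_ne, f_natDegree, B0_natDegree, A_natDegree]

lemma NN_natDegree : NN.natDegree = 16 := by
  unfold NN
  have h1 : (A ^ 4).natDegree = 16 := by rw [natDegree_pow, A_natDegree]
  have h2 : (C (16 * 69360 ^ 2 : ℚ) * (B0 ^ 2 * f) ^ 2).natDegree = 14 := by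
    rw [natDegree_C_mul (by norm_num), natDegree_pow, natDegree_mul (pow_ne_zero _ B0_ne) f_ne,
      natDegree_pow, f_natDegree, B0_natDegree]
  rw [natDegree_add_eq_left_of_natDegree_lt (by rw [h1, h2]; norm_num), h1]

lemma coprime : IsCoprime NN DD := by
  have hB0 : B0 = (X - C 14400) * (X - C (-14400)) := by
    unfold B0
    have : (C (207360000 : ℚ)) = C 14400 * C 14400 := by rw [← C_mul]; norm_num
    rw [this, C_neg]
    ring
  have hf : f = (X - C 0) * (X - C (-50625)) * (X - C (-4096)) := by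
    unfold f
    simp only [C_neg, C_0]
    ring
  have key : ∀ a : ℚ, A.eval a ≠ 0 → IsCoprime A (X - C a) := by
    intro a ha
    exact ((irreducible_X_sub_C a).coprime_iff_not_dvd.mpr (by
      rw [dvd_iff_isRoot]; exact ha)).symm
  have hAB : IsCoprime A B0 := by
    rw [hB0]
    refine IsCoprime.mul_right (key _ ?_) (key _ ?_) <;> rw [A_eval] <;> norm_num
  have hAf : IsCoprime A f := by
    rw [hf]
    refine IsCoprime.mul_right (IsCoprime.mul_right (key _ ?_) (key _ ?_)) (key _ ?_) <;> rw [A_eval] <;>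
      norm_num
  have u1 : IsUnit (C (4 : ℚ)) := isUnit_C.mpr (by norm_num)
  have u2 : IsUnit (C (16 * 69360 ^ 2 : ℚ)) := isUnit_C.mpr (by norm_num)
  have h1 : IsCoprime NN A := by
    unfold NN
    have : IsCoprime (C (16 * 69360 ^ 2 : ℚ) * (B0 ^ 2 * f) ^ 2) A := by
      rw [isCoprime_mul_unit_left_left u2]
      exact ((hAB.symm.pow_left).mul_left hAf.symm).pow_left
    have h2 := this.add_mul_right_left (A ^ 3)
    rwa [add_comm, ← pow_succ] at h2
  have h2 : IsCoprime NN (B0 * f) := by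
    unfold NN
    have : IsCoprime (A ^ 4) (B0 * f) := (hAB.mul_right hAf).pow_left
    have h2 := this.add_mul_right_left (C (16 * 69360 ^ 2 : ℚ) * (B0 ^ 3 * f))
    rw [show C (16 * 69360 ^ 2 : ℚ) * (B0 ^ 2 * f) ^ 2 = C (16 * 69360 ^ 2 : ℚ) * (B0 ^ 3 * f) * (B0 * f) by ring]
    exact h2
  unfold DD
  rw [mul_assoc, isCoprime_mul_unit_left_right u1]
  exact IsCoprime.mul_right (IsCoprime.of_mul_right_right h2)
    ((IsCoprime.mul_right (IsCoprime.of_mul_right_left h2) h1).pow_right)

lemma U_infinite : U.Infinite := by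
  intro hfin
  have h1 : ∀ u : ℚ, {x : ℚ | (NN - C u * DD).eval x = 0}.Finite := by
    intro u
    apply finite_zeros
    intro h0
    have h2 : NN = C u * DD := sub_eq_zero.mp h0
    have h3 := congrArg natDegree h2
    have h4 := natDegree_C_mul_le u DD
    rw [NN_natDegree] at h3
    rw [DD_natDegree] at h4
    omega
  have h2 := hfin.biUnion fun u _ => h1 u
  let X : ℕ → ℚ := fun j => xc ((2 ^ j : ℕ) • P0)
  have hX : ∀ j, padicNorm 2 (X j) = 4 ^ j * 256 := by
    intro j
    obtain ⟨x, y, h, he, hv⟩ := P0_mul j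
    change padicNorm 2 (xc ((2 ^ j : ℕ) • P0)) = _
    rw [he]
    exact hv
  have hXi : Function.Injective X := by
    intro i j hij
    have h3 := hX i
    rw [hij, hX j] at h3
    have h4 : (4 : ℚ) ^ j = 4 ^ i := by linarith
    exact (pow_right_injective₀ (by norm_num) (by norm_num) h4).symm
  apply Set.infinite_range_of_injective hXi
  apply h2.subset
  rintro _ ⟨j, rfl⟩
  have h16 : (16 : ℕ) • ((2 ^ j : ℕ) • P0) ≠ 0 := by
    rw [← mul_nsmul, show 2 ^ j * 16 = 2 ^ (j + 4) by rw [pow_add]; norm_num]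
    obtain ⟨x, y, h, he, hv⟩ := P0_mul (j + 4)
    rw [he]
    exact Point.some_ne_zero _
  have h8 : (8 : ℕ) • ((2 ^ j : ℕ) • P0) ≠ 0 := by
    intro h0
    apply h16
    rw [show (16 : ℕ) = 8 * 2 by norm_num, mul_nsmul, h0, nsmul_zero]
  obtain ⟨y, hy, hyf, hD, hD0, hN⟩ := values h8
  simp only [Set.mem_iUnion]
  refine ⟨_, ⟨_, h16, rfl⟩, ?_⟩
  rw [Set.mem_ofPred_eq, eval_sub, eval_mul, eval_C, ← hN]
  exact sub_self _

end Pool.Agent.H861.Mestre
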